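import Pool.Agent.R3.Stmts

/-!
# R3, modules ROW and RWG
-/

set_option autoImplicit false

namespace Pool.Agent.R3.H8

open Finset Function

variable {V : Type} [Fintype V] [DecidableEq V]

theorem ct_cast (l : V → Fin 3) (i : Fin 3) :
    (ct l i : ℤ) = ∑ v, if l v = i then (1 : ℤ) else 0 := by
  unfold ct
  rw [Finset.card_filter]
  push_cast
  rfl

theorem ct_upd (l : V → Fin 3) (v : V) (j i : Fin 3) :
    (ct (update l v j) i : ℤ) =
      ct l i - (if l v = i then 1 else 0) + (if j = i then 1 else 0) := by
  rw [ct_cast, ct_cast, ← add_sum_erase univ _ (mem_univ v),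
    ← add_sum_erase univ (fun u => if l u = i then (1 : ℤ) else 0) (mem_univ v)]
  have e : ∑ x ∈ univ.erase v, (if update l v j x = i then (1 : ℤ) else 0) =
      ∑ x ∈ univ.erase v, (if l x = i then (1 : ℤ) else 0) := by
    apply sum_congr rfl
    intro u hu
    rw [update_of_ne (ne_of_mem_erase hu)]
  rw [e, update_self]
  ring

theorem dl_zero : dl 0 = 0 := by
  unfold dl
  simp

theorem pt_upd (l : V → Fin 3) (v : V) (j : Fin 3) :
    pt (update l v j) = pt l - dl (l v) + dl j := by
  unfold pt dl
  rw [ct_upd, ct_upd]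
  rfl

theorem lab_ne {σ : Fin 3 → Equiv.Perm V} (s0 : σ 0 = 1) {l : V → Fin 3} {x y : V}
    (h : NP σ l x y) (hxy : y ≠ x) : l y ≠ 0 := by
  intro h0
  apply h.2.1 y hxy
  unfold ph
  rw [h0, s0]
  rfl

theorem ph_upd_self (σ : Fin 3 → Equiv.Perm V) (l : V → Fin 3) (v : V) (j : Fin 3) :
    ph σ (update l v j) v = σ j v := by
  unfold ph
  rw [update_self]

theorem ph_upd_ne (σ : Fin 3 → Equiv.Perm V) (l : V → Fin 3) {v u : V} (j : Fin 3) (h : u ≠ v) :
    ph σ (update l v j) u = ph σ l u := by
  unfold ph
  rw [update_of_ne h]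

/-- the column retraction of a state -/
theorem np_col {σ : Fin 3 → Equiv.Perm V} (s0 : σ 0 = 1) {l : V → Fin 3} {x y : V}
    (h : NP σ l x y) (hxy : y ≠ x) : NP σ (update l y 0) x (ph σ l y) := by
  have h0 : ph σ (update l y 0) y = y := by
    rw [ph_upd_self, s0]
    rfl
  refine ⟨?_, ?_, ?_⟩
  · rw [update_of_ne hxy.symm]
    exact h.1
  · intro v hv hc
    rcases eq_or_ne v y with rfl | hvy
    · rw [h0] at hc
      exact h.2.1 v hv hc.symm
    · rw [ph_upd_ne _ _ _ hvy] at hc
      exact hvy (h.2.2 v y hv hxy hc)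
  · intro v w hv hw hc
    rcases eq_or_ne v y with rfl | hvy
    · rcases eq_or_ne w v with rfl | hwv
      · rfl
      · rw [h0, ph_upd_ne _ _ _ hwv] at hc
        exact absurd hc.symm (h.2.1 w hw)
    · rcases eq_or_ne w y with rfl | hwy
      · rw [h0, ph_upd_ne _ _ _ hvy] at hc
        exact absurd hc (h.2.1 v hv)
      · rw [ph_upd_ne _ _ _ hvy, ph_upd_ne _ _ _ hwy] at hc
        exact h.2.2 v w hv hw hc

/-- the row move of a state -/
theorem np_row {σ : Fin 3 → Equiv.Perm V} {l : V → Fin 3} {x y g : V} {j : Fin 3}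
    (h : NP σ l x y) (hgx : g ≠ x) (hj : ph σ l g = σ j x) :
    NP σ (update (update l x j) g 0) g y := by
  have key : ∀ v, v ≠ g → v ≠ x → ph σ (update (update l x j) g 0) v = ph σ l v := by
    intro v hvg hvx
    rw [ph_upd_ne _ _ _ hvg, ph_upd_ne _ _ _ hvx]
  have keyx : ph σ (update (update l x j) g 0) x = ph σ l g := by
    rw [ph_upd_ne _ _ _ hgx.symm, ph_upd_self, hj]
  refine ⟨update_self _ _ _, ?_, ?_⟩
  · intro v hv hc
    rcases eq_or_ne v x with rfl | hvx
    · rw [keyx] at hc
      exact h.2.1 g hgx hc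
    · rw [key v hv hvx] at hc
      exact h.2.1 v hvx hc
  · intro v w hv hw hc
    rcases eq_or_ne v x with rfl | hvx
    · rcases eq_or_ne w v with rfl | hwv
      · rfl
      · rw [keyx, key w hw hwv] at hc
        exact absurd (h.2.2 g w hgx hwv hc).symm hw
    · rcases eq_or_ne w x with rfl | hwx
      · rw [keyx, key v hv hvx] at hc
        exact absurd (h.2.2 v g hvx hgx hc) hv
      · rw [key v hv hvx, key w hw hwx] at hc
        exact h.2.2 v w hvx hwx hc

/-- the end state is perfect -/
theorem pf_of_np {σ : Fin 3 → Equiv.Perm V} (s0 : σ 0 = 1) {l : V → Fin 3} {x : V}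
    (h : NP σ l x x) : PF σ l := by
  have h0 : ph σ l x = x := by
    unfold ph
    rw [h.1, s0]
    rfl
  intro v w hc
  rcases eq_or_ne v x with rfl | hvx
  · rcases eq_or_ne w v with rfl | hwv
    · rfl
    · rw [h0] at hc
      exact absurd hc.symm (h.2.1 w hwv)
  · rcases eq_or_ne w x with rfl | hwx
    · rw [h0] at hc
      exact absurd hc (h.2.1 v hvx)
    · exact h.2.2 v w hvx hwx hc

/-- the triangle at a row move -/
theorem tri (upt : UptStmt) (b c : ℤ) {l : V → Fin 3} {x g : V} (j : Fin 3) (hx : l x = 0)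
    (hgx : g ≠ x) :
    W b c l (update l g 0) = W b c l (update (update l x j) g 0) +
      W b c (update (update l x j) g 0) (update l g 0) := by
  have h := upt b c (pt l - dl (l g)) (l g) j 0
  have e1 : pt l - dl (l g) + dl (l g) = pt l := by abel
  have e2 : pt l - dl (l g) + dl j = pt (update (update l x j) g 0) := by
    rw [pt_upd, pt_upd, update_of_ne hgx, hx, dl_zero]
    abel
  have e3 : pt l - dl (l g) + dl 0 = pt (update l g 0) := (pt_upd l g 0).symm
  rw [e1, e2, e3] at h
  unfold W
  exact h.symm

/-- the square of a column retraction and a row move -/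
theorem sqr (sqa : SqaStmt) {σ : Fin 3 → Equiv.Perm V} {b c : ℤ} {d : ℤ × ℤ}
    (hC : Ctx σ b c d) {l : V → Fin 3} {x y g : V} {j : Fin 3} (h : NP σ l x y) (hyx : y ≠ x)
    (hgx : g ≠ x) (hgy : g ≠ y) (hj : ph σ l g = σ j x) :
    W b c l (update l y 0) +
      W b c (update l y 0) (update (update (update l y 0) x j) g 0) =
    W b c l (update (update l x j) g 0) +
      W b c (update (update l x j) g 0) (update (update (update l y 0) x j) g 0) := by
  have n1 : NP σ (update l y 0) x (ph σ l y) := np_col hC.s0 h hyx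
  have n2 : NP σ (update (update l x j) g 0) g y := np_row h hgx hj
  have n3 : NP σ (update (update (update l y 0) x j) g 0) g (ph σ l y) := by
    apply np_row n1 hgx
    rw [ph_upd_ne _ _ _ hgy, hj]
  have m0 := hC.miss l x y h
  have m1 := hC.miss _ _ _ n1
  have m2 := hC.miss _ _ _ n2
  have m3 := hC.miss _ _ _ n3
  have e0 : pt l = pt l - dl (l y) - dl (l g) + dl (l y) + dl (l g) := by abel
  have e1 : pt (update l y 0) = pt l - dl (l y) - dl (l g) + dl 0 + dl (l g) := by
    rw [pt_upd]
    abel
  have e2 : pt (update (update l x j) g 0) = pt l - dl (l y) - dl (l g) + dl (l y) + dl j := by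
    rw [pt_upd, pt_upd, update_of_ne hgx, h.1, dl_zero]
    abel
  have e3 : pt (update (update (update l y 0) x j) g 0) =
      pt l - dl (l y) - dl (l g) + dl 0 + dl j := by
    rw [pt_upd, pt_upd, pt_upd, update_of_ne hgx, update_of_ne hgy, update_of_ne hyx.symm, h.1,
      dl_zero]
    abel
  have hs := sqa b c d (pt l - dl (l y) - dl (l g)) (l y) 0 (l g) j hC.hd
    (by rw [← e0]; exact m0) (by rw [← e1]; exact m1) (by rw [← e3]; exact m3)
    (by rw [← e2]; exact m2)
  rw [← e0, ← e1, ← e2, ← e3] at hs
  exact hs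

theorem row (upt : UptStmt) (sqa : SqaStmt) : RowStmt := by
  intro V _ _ σ b c d hC l
  induction hn : nu l using Nat.strong_induction_on generalizing l with
  | _ n ih =>
    intro x y g j Y h hg hj hgj hx hy hgY hcl
    have hgx : g ≠ x := fun e => hgY (e ▸ hx)
    have hgy : g ≠ y := fun e => hgY (e ▸ hy)
    rcases eq_or_ne y x with rfl | hyx
    · rw [Fd, dif_neg (by simp)]
      have e1 : update (update l y j) g 0 y ≠ 0 := by
        rw [update_of_ne hgx.symm, update_self]
        exact hj
      have e2 : update (update (update l y j) g 0) y 0 = update l g 0 := by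
        funext u
        rcases eq_or_ne u y with rfl | hu
        · rw [update_self, update_of_ne hgx.symm, h.1]
        · rw [update_of_ne hu]
          rcases eq_or_ne u g with rfl | hug
          · rw [update_self, update_self]
          · rw [update_of_ne hug, update_of_ne hug, update_of_ne hu]
      have e3 : ph σ (update (update l y j) g 0) y = ph σ l g := by
        rw [ph_upd_ne _ _ _ hgx.symm, ph_upd_self, hgj]
      rw [Ps, dif_pos ⟨hgx, e1⟩, e2, e3]
      unfold Bg
      rw [tri upt b c j h.1 hgx]
      ring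
    · have hl : l y ≠ 0 := lab_ne hC.s0 h hyx
      have e1 : update (update l x j) g 0 y ≠ 0 := by
        rw [update_of_ne hgy.symm, update_of_ne hyx]
        exact hl
      have e2 : update (update (update l x j) g 0) y 0 =
          update (update (update l y 0) x j) g 0 := by
        rw [update_comm hgy, update_comm hyx.symm]
      have e3 : ph σ (update (update l x j) g 0) y = ph σ l y := by
        rw [ph_upd_ne _ _ _ hgy.symm, ph_upd_ne _ _ _ hyx]
      rw [Fd, dif_pos ⟨hyx.symm, hl⟩, Ps, dif_pos ⟨hgy, e1⟩, e2, e3]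
      have hI := ih (nu (update l y 0)) (hn ▸ nu_lt hl) (update l y 0) rfl x (ph σ l y) g j Y
        (np_col hC.s0 h hyx) (by rw [update_of_ne hgy]; exact hg) hj
        (by rw [ph_upd_ne _ _ _ hgy, hgj]) hx (hcl y hy hyx) hgY (by
          intro v hv hvx
          rcases eq_or_ne v y with rfl | hvy
          · rw [ph_upd_self, hC.s0]
            exact hy
          · rw [ph_upd_ne _ _ _ hvy]
            exact hcl v hv hvx)
      rw [hI]
      linarith [sqr sqa hC h hyx hgx hgy hgj]

/-- the value of the potential at a perfect matching -/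
theorem ps_pf {σ : Fin 3 → Equiv.Perm V} {b c : ℤ} (hX : ∀ M, XM σ b c M) {l : V → Fin 3}
    (hP : PF σ l) {x g : V} (hg : l g ≠ 0) : Ps σ b c l x x = Bg σ b c g l := by
  have h' : ∃ v, l v ≠ 0 := ⟨g, hg⟩
  rw [Ps, dif_neg (by simp), dif_pos h']
  exact hX (nu l) l hP le_rfl h'.choose g h'.choose_spec hg

theorem rwg (upt : UptStmt) (sqa : SqaStmt) : RwgStmt := by
  intro V _ _ σ b c d hC hX l
  induction hn : nu l using Nat.strong_induction_on generalizing l with
  | _ n ih =>
    intro x y g j h hgx hg hj hgj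
    have e2' : update (update (update l x j) g 0) x 0 = update l g 0 := by
      funext u
      rcases eq_or_ne u x with rfl | hu
      · rw [update_self, update_of_ne hgx.symm, h.1]
      · rw [update_of_ne hu]
        rcases eq_or_ne u g with rfl | hug
        · rw [update_self, update_self]
        · rw [update_of_ne hug, update_of_ne hug, update_of_ne hu]
    have e1' : update (update l x j) g 0 x ≠ 0 := by
      rw [update_of_ne hgx.symm, update_self]
      exact hj
    have e3' : ph σ (update (update l x j) g 0) x = ph σ l g := by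
      rw [ph_upd_ne _ _ _ hgx.symm, ph_upd_self, hgj]
    rcases eq_or_ne y x with rfl | hyx
    · rw [ps_pf hX (pf_of_np hC.s0 h) hg]
      rw [Ps, dif_pos ⟨hgx, e1'⟩, e2', e3']
      unfold Bg
      rw [tri upt b c j h.1 hgx]
      ring
    · rcases eq_or_ne y g with rfl | hyg
      · have h2 : NP σ (update (update l x j) y 0) y y := np_row h hgx hgj
        rw [Ps, dif_pos ⟨hgx.symm, hg⟩, ps_pf hX (pf_of_np hC.s0 h2) e1']
        unfold Bg
        rw [e2', e3', tri upt b c j h.1 hgx]
        ring
      · have hgy := hyg.symm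
        have hl : l y ≠ 0 := lab_ne hC.s0 h hyx
        have e1 : update (update l x j) g 0 y ≠ 0 := by
          rw [update_of_ne hgy.symm, update_of_ne hyx]
          exact hl
        have e2 : update (update (update l x j) g 0) y 0 =
            update (update (update l y 0) x j) g 0 := by
          rw [update_comm hgy, update_comm hyx.symm]
        have e3 : ph σ (update (update l x j) g 0) y = ph σ l y := by
          rw [ph_upd_ne _ _ _ hgy.symm, ph_upd_ne _ _ _ hyx]
        rw [Ps, dif_pos ⟨hyx.symm, hl⟩]
        conv_rhs => rw [Ps, dif_pos ⟨hgy, e1⟩, e2, e3]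
        have hI := ih (nu (update l y 0)) (hn ▸ nu_lt hl) (update l y 0) rfl x (ph σ l y) g j
          (np_col hC.s0 h hyx) hgx (by rw [update_of_ne hgy]; exact hg) hj
          (by rw [ph_upd_ne _ _ _ hgy, hgj])
        rw [hI]
        linarith [sqr sqa hC h hyx hgx hgy hgj]

end Pool.Agent.R3.H8
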